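import Mathlib

set_option autoImplicit false

namespace Pool.Agent.P.MP_756531_al

open Finset

open Classical in
/-- The block of `a` for the relation `R`. -/
noncomputable def blk {B : Type} [Fintype B] (R : B → B → Prop) (a : B) : Finset B :=
  Finset.univ.filter (fun b => R a b)

theorem mem_blk {B : Type} [Fintype B] {R : B → B → Prop} {a b : B} :
    b ∈ blk R a ↔ R a b := by
  simp [blk]

theorem blk_mono {B : Type} [Fintype B] {R T : B → B → Prop} (h : ∀ a b, R a b → T a b) (a : B) :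
    (blk R a).card ≤ (blk T a).card := by
  apply Finset.card_le_card
  intro b hb
  exact mem_blk.2 (h _ _ (mem_blk.1 hb))

theorem blk_eq {B : Type} [Fintype B] {T : B → B → Prop} (hT : Equivalence T) {a b : B}
    (h : T a b) : blk T a = blk T b := by
  ext c
  rw [mem_blk, mem_blk]
  exact ⟨fun h' => hT.trans (hT.symm h) h', fun h' => hT.trans h h'⟩

/-- The middle point of a type-3 path determines the pair of end points. -/
theorem inj_count {B : Type} [Fintype B] {P R T0 Q S T1 T : B → B → Prop}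
    (hP : Equivalence P) (hR : Equivalence R) (hT0 : Equivalence T0)
    (hQ : Equivalence Q) (hS : Equivalence S) (hT1 : Equivalence T1) (hT : Equivalence T)
    (hPT0 : ∀ a b, P a b → T0 a b) (hRT0 : ∀ a b, R a b → T0 a b)
    (hQT1 : ∀ a b, Q a b → T1 a b) (hST1 : ∀ a b, S a b → T1 a b)
    (hT0T : ∀ a b, T0 a b → T a b) (hT1T : ∀ a b, T1 a b → T a b)
    (hPR : ∀ a b, P a b → R a b → a = b) (hQS : ∀ a b, Q a b → S a b → a = b)
    (hT0Q : ∀ a b, T0 a b → Q a b → a = b) (hT1P : ∀ a b, T1 a b → P a b → a = b)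
    (hjoin : ∀ a b, T a b → ∃ c d e, P a c ∧ Q c d ∧ P d e ∧ Q e b)
    (a0 b0 : B) (hab : T a0 b0) :
    (blk R a0).card * (blk S b0).card ≤ (blk T a0).card := by
  classical
  rw [← Finset.card_product]
  have key : ∀ p : B × B, p ∈ blk R a0 ×ˢ blk S b0 →
      ∃ d, ∃ c e, P p.1 c ∧ Q c d ∧ P d e ∧ Q e p.2 := by
    rintro ⟨a, b⟩ hp
    rw [Finset.mem_product, mem_blk, mem_blk] at hp
    have h1 : T a b :=
      hT.trans (hT.symm (hT0T _ _ (hRT0 _ _ hp.1))) (hT.trans hab (hT1T _ _ (hST1 _ _ hp.2)))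
    obtain ⟨c, d, e, h⟩ := hjoin a b h1
    exact ⟨d, c, e, h⟩
  have : Nonempty B := ⟨a0⟩
  choose! f hf using key
  apply Finset.card_le_card_of_injOn f
  · intro p hp
    obtain ⟨c, e, h1, h2, h3, h4⟩ := hf p hp
    have hp' := hp
    rw [Finset.mem_coe, Finset.mem_product, mem_blk, mem_blk] at hp'
    rw [Finset.mem_coe, mem_blk]
    exact hT.trans (hT0T _ _ (hRT0 _ _ hp'.1))
      (hT.trans (hT0T _ _ (hPT0 _ _ h1)) (hT1T _ _ (hQT1 _ _ h2)))
  · intro p hp p' hp' hff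
    obtain ⟨c, e, h1, h2, h3, h4⟩ := hf p hp
    obtain ⟨c', e', h1', h2', h3', h4'⟩ := hf p' hp'
    rw [Finset.mem_coe, Finset.mem_product, mem_blk, mem_blk] at hp hp'
    rw [← hff] at h2' h3'
    have hRp : R p.1 p'.1 := hR.trans (hR.symm hp.1) hp'.1
    have hSp : S p.2 p'.2 := hS.trans (hS.symm hp.2) hp'.2
    have hc : c = c' := by
      apply hT0Q
      · exact hT0.trans (hT0.symm (hPT0 _ _ h1)) (hT0.trans (hRT0 _ _ hRp) (hPT0 _ _ h1'))
      · exact hQ.trans h2 (hQ.symm h2')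
    have he : e = e' := by
      apply hT1P
      · exact hT1.trans (hQT1 _ _ h4) (hT1.trans (hST1 _ _ hSp) (hT1.symm (hQT1 _ _ h4')))
      · exact hP.trans (hP.symm h3) h3'
    subst hc
    subst he
    apply Prod.ext
    · exact hPR _ _ (hP.trans h1 (hP.symm h1')) hRp
    · exact hQS _ _ (hQ.trans (hQ.symm h4) h4') hSp

theorem step_count {B : Type} [Fintype B] {S : B → B → Prop} (X : Finset B) (s : ℕ)
    (h : ∀ a ∈ X, (blk S a).card ≤ s) [DecidableEq B] :
    (X.biUnion (blk S)).card ≤ X.card * s :=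
  Finset.card_biUnion_le_card_mul _ _ _ h

/-- Counting type-3 paths. -/
theorem four_count {B : Type} [Fintype B] {S U T : B → B → Prop} (hT : Equivalence T)
    (hST : ∀ a b, S a b → T a b) (hUT : ∀ a b, U a b → T a b)
    (hjoin : ∀ a b, T a b → ∃ c d e, S a c ∧ U c d ∧ S d e ∧ U e b)
    (a0 : B) (s u : ℕ) (hs : ∀ b, T a0 b → (blk S b).card ≤ s)
    (hu : ∀ b, T a0 b → (blk U b).card ≤ u) :
    (blk T a0).card ≤ s * u * s * u := by
  classical
  set X1 := blk S a0 with hX1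
  set X2 := X1.biUnion (blk U) with hX2
  set X3 := X2.biUnion (blk S) with hX3
  set X4 := X3.biUnion (blk U) with hX4
  have m1 : ∀ b ∈ X1, T a0 b := fun b hb => hST _ _ (mem_blk.1 hb)
  have m2 : ∀ b ∈ X2, T a0 b := by
    intro b hb
    obtain ⟨c, hc, hcb⟩ := Finset.mem_biUnion.1 hb
    exact hT.trans (m1 c hc) (hUT _ _ (mem_blk.1 hcb))
  have m3 : ∀ b ∈ X3, T a0 b := by
    intro b hb
    obtain ⟨c, hc, hcb⟩ := Finset.mem_biUnion.1 hb
    exact hT.trans (m2 c hc) (hST _ _ (mem_blk.1 hcb))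
  have c1 : X1.card ≤ s := hs a0 (hT.refl _)
  have c2 : X2.card ≤ X1.card * u := step_count X1 u (fun a ha => hu a (m1 a ha))
  have c3 : X3.card ≤ X2.card * s := step_count X2 s (fun a ha => hs a (m2 a ha))
  have c4 : X4.card ≤ X3.card * u := step_count X3 u (fun a ha => hu a (m3 a ha))
  have sub : blk T a0 ⊆ X4 := by
    intro b hb
    obtain ⟨c, d, e, h1, h2, h3, h4⟩ := hjoin a0 b (mem_blk.1 hb)
    refine Finset.mem_biUnion.2 ⟨e, ?_, mem_blk.2 h4⟩
    refine Finset.mem_biUnion.2 ⟨d, ?_, mem_blk.2 h3⟩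
    exact Finset.mem_biUnion.2 ⟨c, mem_blk.2 h1, mem_blk.2 h2⟩
  calc (blk T a0).card ≤ X4.card := Finset.card_le_card sub
    _ ≤ X3.card * u := c4
    _ ≤ X2.card * s * u := by gcongr
    _ ≤ X1.card * u * s * u := by gcongr
    _ ≤ s * u * s * u := by gcongr

theorem arith (ρ τ : ℕ) (hτ : 0 < τ)
    (h : τ ≤ (τ / ρ) * (τ / ρ) * (τ / ρ) * (τ / ρ)) : ρ ^ 4 ≤ τ ^ 3 := by
  have h1 : (τ / ρ) * ρ ≤ τ := Nat.div_mul_le_self τ ρ
  have h2 : τ * ρ ^ 4 ≤ τ * τ ^ 3 := by
    calc τ * ρ ^ 4 ≤ ((τ / ρ) * (τ / ρ) * (τ / ρ) * (τ / ρ)) * ρ ^ 4 := by gcongr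
      _ = ((τ / ρ) * ρ) ^ 4 := by ring
      _ ≤ τ ^ 4 := by gcongr
      _ = τ * τ ^ 3 := by ring
  exact Nat.le_of_mul_le_mul_left h2 hτ

/-- A system of equivalence relations indexed by the nodes of the ternary tree of depth 11. -/
structure TreeSys (B : Type) (r : List (Fin 3) → B → B → Prop) : Prop where
  eqv : ∀ l, Equivalence (r l)
  mono : ∀ l m : List (Fin 3), (l ++ m).length ≤ 11 → ∀ a b, r (l ++ m) a b → r l a b
  meet : ∀ (l m m' : List (Fin 3)) (i j : Fin 3), i ≠ j → (l ++ i :: m).length ≤ 11 →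
    (l ++ j :: m').length ≤ 11 → ∀ a b, r (l ++ i :: m) a b → r (l ++ j :: m') a b → a = b
  join : ∀ (l m m' : List (Fin 3)) (i j : Fin 3), i ≠ j → (l ++ i :: m).length ≤ 11 →
    (l ++ j :: m').length ≤ 11 → ∀ a b, r l a b →
      ∃ c d e, r (l ++ i :: m) a c ∧ r (l ++ j :: m') c d ∧ r (l ++ i :: m) d e ∧
        r (l ++ j :: m') e b

theorem TreeSys.pair {B : Type} [Fintype B] {r : List (Fin 3) → B → B → Prop} (H : TreeSys B r)
    (l : List (Fin 3)) (hl : l.length + 2 ≤ 11) (j : Fin 3) (hj : (0 : Fin 3) ≠ j)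
    (a b : B) (hab : r l a b) :
    (blk (r (l ++ [0, 0])) a).card * (blk (r (l ++ [j, 0])) b).card ≤ (blk (r l) a).card := by
  have e1 : ∀ x y : Fin 3, l ++ [x, y] = (l ++ [x]) ++ [y] := by intro x y; simp
  have len2 : ∀ x y : Fin 3, (l ++ [x, y]).length ≤ 11 := by intro x y; simp; omega
  have len1 : ∀ x : Fin 3, (l ++ [x]).length ≤ 11 := by intro x; simp; omega
  have down : ∀ x y : Fin 3, ∀ a b, r (l ++ [x, y]) a b → r (l ++ [x]) a b := by
    intro x y a b h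
    rw [e1] at h
    exact H.mono _ _ (by rw [← e1]; exact len2 x y) a b h
  have sib : ∀ x : Fin 3, ∀ a b, r (l ++ [x, 1]) a b → r (l ++ [x, 0]) a b → a = b := by
    intro x a b h h'
    rw [e1] at h h'
    exact H.meet (l ++ [x]) [] [] 1 0 (by decide) (by rw [← e1]; exact len2 x 1)
      (by rw [← e1]; exact len2 x 0) a b h h'
  refine inj_count (P := r (l ++ [0, 1])) (T0 := r (l ++ [0])) (Q := r (l ++ [j, 1]))
    (T1 := r (l ++ [j])) (H.eqv _) (H.eqv _) (H.eqv _) (H.eqv _) (H.eqv _) (H.eqv _) (H.eqv _)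
    (down 0 1) (down 0 0) (down j 1) (down j 0) (H.mono _ _ (len1 0)) (H.mono _ _ (len1 j))
    (sib 0) (sib j) ?_ ?_ ?_ a b hab
  · exact H.meet l [] [1] 0 j hj (len1 0) (len2 j 1)
  · exact H.meet l [] [1] j 0 hj.symm (len1 j) (len2 0 1)
  · exact H.join l [1] [1] 0 j hj (len2 0 1) (len2 j 1)

theorem TreeSys.gadget {B : Type} [Fintype B] {r : List (Fin 3) → B → B → Prop}
    (H : TreeSys B r) (l : List (Fin 3)) (hl : l.length + 2 ≤ 11) (a : B) :
    (blk (r (l ++ [0, 0])) a).card ^ 4 ≤ (blk (r l) a).card ^ 3 := by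
  have len2 : ∀ x y : Fin 3, (l ++ [x, y]).length ≤ 11 := by intro x y; simp; omega
  have hρ : 0 < (blk (r (l ++ [0, 0])) a).card :=
    Finset.card_pos.2 ⟨a, mem_blk.2 ((H.eqv _).refl a)⟩
  have hτ : 0 < (blk (r l) a).card := Finset.card_pos.2 ⟨a, mem_blk.2 ((H.eqv _).refl a)⟩
  apply arith _ _ hτ
  refine four_count (S := r (l ++ [1, 0])) (U := r (l ++ [2, 0])) (H.eqv l)
    (H.mono _ _ (len2 1 0)) (H.mono _ _ (len2 2 0))
    (H.join l [0] [0] 1 2 (by decide) (len2 1 0) (len2 2 0)) a _ _ ?_ ?_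
  · intro b hb
    rw [Nat.le_div_iff_mul_le hρ, mul_comm]
    exact H.pair l hl 1 (by decide) a b hb
  · intro b hb
    rw [Nat.le_div_iff_mul_le hρ, mul_comm]
    exact H.pair l hl 2 (by decide) a b hb

theorem TreeSys.iter {B : Type} [Fintype B] {r : List (Fin 3) → B → B → Prop}
    (H : TreeSys B r) (l : List (Fin 3)) (a : B) (k : ℕ) (hk : l.length + 2 * k ≤ 11) :
    (blk (r (l ++ List.replicate (2 * k) 0)) a).card ^ (4 ^ k) ≤ (blk (r l) a).card ^ (3 ^ k) := by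
  induction k with
  | zero => simp
  | succ k ih =>
    have ih' := ih (by omega)
    have e : l ++ List.replicate (2 * (k + 1)) (0 : Fin 3)
        = (l ++ List.replicate (2 * k) 0) ++ [0, 0] := by
      rw [List.append_assoc, show 2 * (k + 1) = 2 * k + 2 by ring, List.replicate_add]
      rfl
    rw [e]
    have g := H.gadget (l ++ List.replicate (2 * k) 0) (by simp; omega) a
    calc (blk (r ((l ++ List.replicate (2 * k) 0) ++ [0, 0])) a).card ^ (4 ^ (k + 1))
        = ((blk (r ((l ++ List.replicate (2 * k) 0) ++ [0, 0])) a).card ^ 4) ^ (4 ^ k) := by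
          rw [← pow_mul, pow_succ']
      _ ≤ ((blk (r (l ++ List.replicate (2 * k) 0)) a).card ^ 3) ^ (4 ^ k) := by gcongr
      _ = ((blk (r (l ++ List.replicate (2 * k) 0)) a).card ^ (4 ^ k)) ^ 3 := by
          rw [← pow_mul, ← pow_mul, mul_comm 3]
      _ ≤ ((blk (r l) a).card ^ (3 ^ k)) ^ 3 := by gcongr
      _ = (blk (r l) a).card ^ (3 ^ (k + 1)) := by rw [← pow_mul, pow_succ]

theorem arith2 (N s u p q : ℕ) (hpq : 4 * q < p) (hs : s ^ p ≤ N ^ q) (hu : u ^ p ≤ N ^ q)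
    (h : N ≤ s * u * s * u) : N ≤ 1 := by
  by_contra hN
  have hN' : 1 < N := by omega
  have h1 : N ^ p ≤ N ^ (4 * q) := by
    calc N ^ p ≤ (s * u * s * u) ^ p := by gcongr
      _ = s ^ p * u ^ p * s ^ p * u ^ p := by simp only [mul_pow]
      _ ≤ N ^ q * N ^ q * N ^ q * N ^ q := by gcongr
      _ = N ^ (4 * q) := by ring
  have h2 : N ^ (4 * q) < N ^ p := Nat.pow_lt_pow_right hN' hpq
  omega

theorem TreeSys.collapse {B : Type} [Fintype B] {r : List (Fin 3) → B → B → Prop}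
    (H : TreeSys B r) (a b : B) (hab : r [] a b) : a = b := by
  classical
  have bound : ∀ i : Fin 3, ∃ s : ℕ, s ^ (4 ^ 5) ≤ (blk (r []) a).card ^ (3 ^ 5) ∧
      ∀ c, r [] a c → (blk (r ([] ++ i :: List.replicate (2 * 5) 0)) c).card ≤ s := by
    intro i
    obtain ⟨c, hc, hmax⟩ := Finset.exists_max_image (blk (r []) a)
      (fun c => (blk (r ([] ++ i :: List.replicate (2 * 5) 0)) c).card)
      ⟨a, mem_blk.2 ((H.eqv _).refl a)⟩
    refine ⟨_, ?_, fun c' hc' => hmax c' (mem_blk.2 hc')⟩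
    have h1 := H.iter [i] c 5 (by simp)
    have h2 : (blk (r [i]) c).card ≤ (blk (r []) c).card :=
      blk_mono (H.mono [] [i] (by simp)) c
    rw [blk_eq (H.eqv []) (mem_blk.1 hc)]
    exact le_trans h1 (by gcongr)
  obtain ⟨s, hs, hs'⟩ := bound 0
  obtain ⟨u, hu, hu'⟩ := bound 1
  have len : ∀ i : Fin 3, (([] : List (Fin 3)) ++ i :: List.replicate (2 * 5) 0).length ≤ 11 := by
    intro i; simp
  have h4 := four_count (H.eqv []) (H.mono [] _ (len 0)) (H.mono [] _ (len 1))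
    (H.join [] _ _ 0 1 (by decide) (len 0) (len 1)) a s u hs' hu'
  have h5 := arith2 _ s u (4 ^ 5) (3 ^ 5) (by norm_num) hs hu h4
  exact Finset.card_le_one.1 h5 a (mem_blk.2 ((H.eqv _).refl a)) b (mem_blk.2 hab)

end Pool.Agent.P.MP_756531_al
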