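import Pool.Agent.P.MP_756531_al.Tree

set_option autoImplicit false

namespace Pool.Agent.P.MP_756531_al

theorem le_nd_nil (x : TL) : x ≤ nd [] := by
  rw [nd_eq [] (by simp)]
  rcases x with _ | l
  · trivial
  · exact List.nil_prefix

theorem card_len (n : ℕ) :
    2 * Nat.card {l : List (Fin 3) // l.length ≤ n} + 1 = 3 ^ (n + 1) := by
  induction n with
  | zero =>
    have : Unique {l : List (Fin 3) // l.length ≤ 0} :=
      ⟨⟨⟨[], le_rfl⟩⟩, fun l => Subtype.ext (List.length_eq_zero_iff.1 (Nat.le_zero.1 l.2))⟩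
    rw [Nat.card_unique]; rfl
  | succ n ih =>
    have hf : Finite {l : List (Fin 3) // l.length ≤ n} :=
      (List.finite_length_le (Fin 3) n).to_subtype
    let e : Option (Fin 3 × {l : List (Fin 3) // l.length ≤ n}) ≃
        {l : List (Fin 3) // l.length ≤ n + 1} :=
      { toFun := fun o => o.elim ⟨[], by simp⟩ fun p => ⟨p.1 :: p.2.1, by simpa using p.2.2⟩
        invFun := fun l => if h : l.1 = [] then none else
          some (l.1.head h, ⟨l.1.tail, by have := l.2; simp; omega⟩)
        left_inv := by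
          rintro (_ | ⟨i, l⟩) <;> simp
        right_inv := by
          rintro ⟨_ | ⟨i, l⟩, h⟩ <;> simp }
    rw [← Nat.card_congr e, Finite.card_option, Nat.card_prod, Nat.card_fin, pow_succ, ← ih]
    ring

theorem card_TL : Nat.card TL = 265721 := by
  have h := card_len 11
  have h2 : Nat.card TL = Nat.card Node + 1 := Finite.card_option
  have h3 : Nat.card Node = Nat.card {l : List (Fin 3) // l.length ≤ 11} := rfl
  omega

theorem local_collapse {A : Type*} (φ : LatticeHom TL (Setoid A))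
    (h3 : ∀ (x y : TL) (a b : A), (φ (x ⊔ y)).r a b →
      ∃ c d e : A, (φ x).r a c ∧ (φ y).r c d ∧ (φ x).r d e ∧ (φ y).r e b)
    (a : A) (hfin : (Quotient.mk (φ bt) '' {b | (φ (nd [])).r a b}).Finite) (b : A)
    (hab : (φ (nd [])).r a b) : (φ bt).r a b := by
  classical
  have hmono : ∀ x y : TL, x ≤ y → ∀ a b, (φ x).r a b → (φ y).r a b := by
    intro x y hxy a b h
    exact Setoid.le_def.1 (OrderHomClass.mono φ hxy) h
  let S := Quotient.mk (φ bt) '' {b | (φ (nd [])).r a b}
  have : Finite S := hfin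
  obtain ⟨n, ⟨e⟩⟩ := Finite.exists_equiv_fin S
  let rep : Fin n → A := fun p => (e.symm p).1.out
  let r : List (Fin 3) → Fin n → Fin n → Prop := fun l p q => (φ (nd l)).r (rep p) (rep q)
  have hout : ∀ (x : TL) (c : A), (φ x).r (Quotient.mk (φ bt) c).out c := fun x c =>
    hmono _ _ (bt_le x) _ _ (Quotient.mk_out (s := φ bt) c)
  have hrep : ∀ p, (φ (nd [])).r a (rep p) := by
    intro p
    obtain ⟨c, hc, hc'⟩ := (e.symm p).2
    have : rep p = (Quotient.mk (φ bt) c).out := by rw [hc']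
    rw [this]
    exact (φ _).trans' hc ((φ _).symm' (hout _ c))
  have hidx : ∀ c, (φ (nd [])).r a c → ∃ p, ∀ x : TL, (φ x).r (rep p) c := by
    intro c hc
    refine ⟨e ⟨_, c, hc, rfl⟩, fun x => ?_⟩
    simp only [rep, Equiv.symm_apply_apply]
    exact hout x c
  have hinj : ∀ p q, (φ bt).r (rep p) (rep q) → p = q := by
    intro p q h
    apply e.symm.injective
    apply Subtype.ext
    rw [← Quotient.out_eq (e.symm p).1, ← Quotient.out_eq (e.symm q).1]
    exact Quotient.sound h
  have H : TreeSys (Fin n) r := by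
    refine ⟨fun l => ⟨fun p => (φ (nd l)).refl' _, fun h => (φ (nd l)).symm' h,
      fun h h' => (φ (nd l)).trans' h h'⟩, ?_, ?_, ?_⟩
    · intro l m h p q hpq
      exact hmono _ _ (nd_le l m h) _ _ hpq
    · intro l m m' i j hij h h' p q h1 h2
      have : (φ (nd (l ++ i :: m) ⊓ nd (l ++ j :: m'))).r (rep p) (rep q) := by
        rw [map_inf]
        exact Setoid.inf_iff_and.2 ⟨h1, h2⟩
      rw [nd_inf l m m' i j hij h h'] at this
      exact hinj p q this
    · intro l m m' i j hij h h' p q hpq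
      have h1 : (φ (nd (l ++ i :: m) ⊔ nd (l ++ j :: m'))).r (rep p) (rep q) := by
        rw [nd_sup l m m' i j hij h h']
        exact hpq
      obtain ⟨c, d, f, k1, k2, k3, k4⟩ := h3 _ _ _ _ h1
      have tc := (φ _).trans' (hrep p) (hmono _ _ (le_nd_nil _) _ _ k1)
      have td := (φ _).trans' tc (hmono _ _ (le_nd_nil _) _ _ k2)
      have tf := (φ _).trans' td (hmono _ _ (le_nd_nil _) _ _ k3)
      obtain ⟨c', hc'⟩ := hidx c tc
      obtain ⟨d', hd'⟩ := hidx d td
      obtain ⟨f', hf'⟩ := hidx f tf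
      refine ⟨c', d', f', ?_, ?_, ?_, ?_⟩
      · exact (φ _).trans' k1 ((φ _).symm' (hc' _))
      · exact (φ _).trans' (hc' _) ((φ _).trans' k2 ((φ _).symm' (hd' _)))
      · exact (φ _).trans' (hd' _) ((φ _).trans' k3 ((φ _).symm' (hf' _)))
      · exact (φ _).trans' (hf' _) k4
  obtain ⟨p, hp⟩ := hidx a ((φ _).refl' a)
  obtain ⟨q, hq⟩ := hidx b hab
  have h1 : r [] p q := (φ _).trans' (hp _) ((φ _).trans' hab ((φ _).symm' (hq _)))
  have h2 := H.collapse _ _ h1
  subst h2
  exact (φ _).trans' ((φ _).symm' (hp _)) (hq _)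

end Pool.Agent.P.MP_756531_al
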