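import Mathlib
import Pool.Agent.P.MP_756531_al.Core

set_option autoImplicit false

namespace Pool.Agent.P.MP_756531_al

/-- Longest common initial segment of two words. -/
def lcp : List (Fin 3) → List (Fin 3) → List (Fin 3)
  | a :: l, b :: m => if a = b then a :: lcp l m else []
  | _, _ => []

theorem lcp_left : ∀ l m : List (Fin 3), lcp l m <+: l
  | [], _ => by simp [lcp]
  | _ :: _, [] => by simp [lcp]
  | a :: l, b :: m => by
    unfold lcp
    split_ifs with h
    · exact (List.prefix_cons_inj a).2 (lcp_left l m)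
    · exact List.nil_prefix

theorem lcp_right : ∀ l m : List (Fin 3), lcp l m <+: m
  | [], _ => by simp [lcp]
  | _ :: _, [] => by simp [lcp]
  | a :: l, b :: m => by
    unfold lcp
    split_ifs with h
    · subst h
      exact (List.prefix_cons_inj a).2 (lcp_right l m)
    · exact List.nil_prefix

theorem le_lcp : ∀ k l m : List (Fin 3), k <+: l → k <+: m → k <+: lcp l m
  | [], _, _, _, _ => List.nil_prefix
  | _ :: _, [], _, h, _ => by simp at h
  | _ :: _, _ :: _, [], _, h => by simp at h
  | c :: k, a :: l, b :: m, h, h' => by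
    rw [List.cons_prefix_cons] at h h'
    obtain ⟨rfl, h⟩ := h
    obtain ⟨rfl, h'⟩ := h'
    unfold lcp
    rw [if_pos rfl]
    exact (List.prefix_cons_inj c).2 (le_lcp k l m h h')

theorem lcp_branch (l m m' : List (Fin 3)) (i j : Fin 3) (h : i ≠ j) :
    lcp (l ++ i :: m) (l ++ j :: m') = l := by
  induction l with
  | nil => simp [lcp, h]
  | cons a l ih => simp [lcp, ih]

/-- Nodes of the ternary tree of depth 11. -/
def Node : Type := {l : List (Fin 3) // l.length ≤ 11}

instance : Finite Node := (List.finite_length_le (Fin 3) 11).to_subtype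

/-- The tree, ordered with the root on top, with a bottom element added. -/
def TL : Type := Option Node

instance : Finite TL := inferInstanceAs (Finite (Option Node))

/-- The order. -/
def TL.le : TL → TL → Prop
  | none, _ => True
  | some _, none => False
  | some l, some m => m.1 <+: l.1

/-- The join. -/
def TL.sup : TL → TL → TL
  | none, y => y
  | some l, none => some l
  | some l, some m => some ⟨lcp l.1 m.1, le_trans (lcp_left _ _).length_le l.2⟩

/-- The meet. -/
def TL.inf : TL → TL → TL
  | none, _ => none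
  | some _, none => none
  | some l, some m => if l.1 <+: m.1 then some m else if m.1 <+: l.1 then some l else none

theorem inf_cases (l m : Node) :
    (l.1 <+: m.1 ∧ TL.inf (some l) (some m) = some m) ∨
    (m.1 <+: l.1 ∧ TL.inf (some l) (some m) = some l) ∨
    (¬ l.1 <+: m.1 ∧ ¬ m.1 <+: l.1 ∧ TL.inf (some l) (some m) = none) := by
  by_cases h : l.1 <+: m.1
  · exact Or.inl ⟨h, if_pos h⟩
  · by_cases h' : m.1 <+: l.1
    · exact Or.inr (Or.inl ⟨h', (if_neg h).trans (if_pos h')⟩)
    · exact Or.inr (Or.inr ⟨h, h', (if_neg h).trans (if_neg h')⟩)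

instance : Lattice TL where
  le := TL.le
  le_refl := by
    rintro (_ | l)
    · trivial
    · exact List.prefix_refl _
  le_trans := by
    rintro (_ | l) (_ | m) (_ | k) h h' <;> first | trivial | exact h.elim | exact h'.elim | skip
    exact List.IsPrefix.trans h' h
  le_antisymm := by
    rintro (_ | l) (_ | m) h h' <;> first | rfl | exact h.elim | exact h'.elim | skip
    have : l.1 = m.1 := List.IsPrefix.eq_of_length h' (le_antisymm h'.length_le h.length_le)
    rw [Subtype.ext this]
  sup := TL.sup
  le_sup_left := by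
    rintro (_ | l) (_ | m)
    · trivial
    · trivial
    · exact List.prefix_refl _
    · exact lcp_left _ _
  le_sup_right := by
    rintro (_ | l) (_ | m)
    · trivial
    · exact List.prefix_refl _
    · trivial
    · exact lcp_right _ _
  sup_le := by
    rintro (_ | l) (_ | m) (_ | k) h h' <;>
      first | trivial | exact h.elim | exact h'.elim | exact h | exact h' | skip
    exact le_lcp _ _ _ h h'
  inf := TL.inf
  inf_le_left := by
    rintro (_ | l) (_ | m)
    · trivial
    · trivial
    · trivial
    · change TL.le (TL.inf (some l) (some m)) (some l)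
      rcases inf_cases l m with ⟨h, e⟩ | ⟨h, e⟩ | ⟨h, h', e⟩ <;> rw [e]
      · exact h
      · exact List.prefix_refl _
      · trivial
  inf_le_right := by
    rintro (_ | l) (_ | m)
    · trivial
    · trivial
    · trivial
    · change TL.le (TL.inf (some l) (some m)) (some m)
      rcases inf_cases l m with ⟨h, e⟩ | ⟨h, e⟩ | ⟨h, h', e⟩ <;> rw [e]
      · exact List.prefix_refl _
      · exact h
      · trivial
  le_inf := by
    rintro (_ | k) (_ | l) (_ | m) h h' <;> first | trivial | exact h.elim | exact h'.elim | skip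
    change TL.le (some k) (TL.inf (some l) (some m))
    rcases inf_cases l m with ⟨h1, e⟩ | ⟨h1, e⟩ | ⟨h1, h2, e⟩ <;> rw [e]
    · exact h'
    · exact h
    · exact ((List.prefix_or_prefix_of_prefix h h').elim h1 h2).elim

/-- The element of the lattice attached to a word (the bottom for long words). -/
def nd (l : List (Fin 3)) : TL := if h : l.length ≤ 11 then some ⟨l, h⟩ else none

theorem nd_eq (l : List (Fin 3)) (h : l.length ≤ 11) : nd l = some ⟨l, h⟩ := dif_pos h

/-- The bottom element. -/
def bt : TL := none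

theorem bt_le (x : TL) : bt ≤ x := trivial

theorem nd_le (l m : List (Fin 3)) (h : (l ++ m).length ≤ 11) : nd (l ++ m) ≤ nd l := by
  have h' : l.length ≤ 11 := by simp at h; omega
  rw [nd_eq _ h, nd_eq _ h']
  exact List.prefix_append l m

theorem nd_sup (l m m' : List (Fin 3)) (i j : Fin 3) (hij : i ≠ j)
    (h : (l ++ i :: m).length ≤ 11) (h' : (l ++ j :: m').length ≤ 11) :
    nd (l ++ i :: m) ⊔ nd (l ++ j :: m') = nd l := by
  have h0 : l.length ≤ 11 := by simp at h; omega
  rw [nd_eq _ h, nd_eq _ h', nd_eq _ h0]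
  change some _ = some _
  congr 1
  exact Subtype.ext (lcp_branch l m m' i j hij)

theorem nd_inf (l m m' : List (Fin 3)) (i j : Fin 3) (hij : i ≠ j)
    (h : (l ++ i :: m).length ≤ 11) (h' : (l ++ j :: m').length ≤ 11) :
    nd (l ++ i :: m) ⊓ nd (l ++ j :: m') = bt := by
  rw [nd_eq _ h, nd_eq _ h']
  rcases inf_cases ⟨_, h⟩ ⟨_, h'⟩ with ⟨h1, e⟩ | ⟨h1, e⟩ | ⟨h1, h2, e⟩
  · have h2 : l ++ i :: m <+: l ++ j :: m' := h1
    rw [List.prefix_append_right_inj, List.cons_prefix_cons] at h2
    exact (hij h2.1).elim
  · have h2 : l ++ j :: m' <+: l ++ i :: m := h1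
    rw [List.prefix_append_right_inj, List.cons_prefix_cons] at h2
    exact (hij h2.1.symm).elim
  · exact e

theorem nd_nil_ne : nd [] ≠ bt := by
  rw [nd_eq [] (by simp)]
  exact Option.some_ne_none _

theorem no_rep (A : Type) [Finite A] (φ : LatticeHom TL (Setoid A))
    (hinj : Function.Injective φ)
    (h3 : ∀ (x y : TL) (a b : A), (φ (x ⊔ y)).r a b ↔
      ∃ c d e : A, (φ x).r a c ∧ (φ y).r c d ∧ (φ x).r d e ∧ (φ y).r e b) : False := by
  classical
  have hmono : ∀ x y : TL, x ≤ y → ∀ a b, (φ x).r a b → (φ y).r a b := by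
    intro x y hxy a b h
    exact Setoid.le_def.1 (OrderHomClass.mono φ hxy) h
  let B := Quotient (φ bt)
  letI : Fintype B := Fintype.ofFinite B
  let r : List (Fin 3) → B → B → Prop := fun l p q => (φ (nd l)).r p.out q.out
  have hout : ∀ (x : TL) (a : A), (φ x).r (Quotient.mk (φ bt) a).out a := fun x a =>
    hmono _ _ (bt_le x) _ _ (Quotient.mk_out (s := φ bt) a)
  have H : TreeSys B r := by
    refine ⟨fun l => ⟨fun p => (φ (nd l)).refl' _, fun h => (φ (nd l)).symm' h,
      fun h h' => (φ (nd l)).trans' h h'⟩, ?_, ?_, ?_⟩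
    · intro l m h p q hpq
      exact hmono _ _ (nd_le l m h) _ _ hpq
    · intro l m m' i j hij h h' p q h1 h2
      have : (φ (nd (l ++ i :: m) ⊓ nd (l ++ j :: m'))).r p.out q.out := by
        rw [map_inf]
        exact Setoid.inf_iff_and.2 ⟨h1, h2⟩
      rw [nd_inf l m m' i j hij h h'] at this
      rw [← Quotient.out_eq p, ← Quotient.out_eq q]
      exact Quotient.sound this
    · intro l m m' i j hij h h' p q hpq
      have h1 : (φ (nd (l ++ i :: m) ⊔ nd (l ++ j :: m'))).r p.out q.out := by
        rw [nd_sup l m m' i j hij h h']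
        exact hpq
      obtain ⟨c, d, e, k1, k2, k3, k4⟩ := (h3 _ _ _ _).1 h1
      refine ⟨Quotient.mk _ c, Quotient.mk _ d, Quotient.mk _ e, ?_, ?_, ?_, ?_⟩
      · exact (φ _).trans' k1 ((φ _).symm' (hout _ c))
      · exact (φ _).trans' (hout _ c) ((φ _).trans' k2 ((φ _).symm' (hout _ d)))
      · exact (φ _).trans' (hout _ d) ((φ _).trans' k3 ((φ _).symm' (hout _ e)))
      · exact (φ _).trans' (hout _ e) k4
  apply nd_nil_ne
  apply hinj
  apply le_antisymm
  · rw [Setoid.le_def]
    intro a b hab
    have h1 : r [] (Quotient.mk _ a) (Quotient.mk _ b) :=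
      (φ _).trans' (hout _ a) ((φ _).trans' hab ((φ _).symm' (hout _ b)))
    exact Quotient.exact (H.collapse _ _ h1)
  · exact OrderHomClass.mono φ (bt_le _)

end Pool.Agent.P.MP_756531_al
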